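import Pool.Agent.helper97.IRO.Spec

set_option autoImplicit false

/-!
Row iro:G1: existence and uniqueness of the germs of an element of `F` at a fixed point.
-/

open MeasureTheory Pool.Agent.LOF

namespace Pool.Agent.IRO

lemma G1_left (B : Finset ℝ) (b : ℝ) : ∃ e < b, ∀ c ∈ B, c ≤ e ∨ b ≤ c := by
  classical
  induction B using Finset.induction_on with
  | empty => exact ⟨b - 1, by linarith, by simp⟩
  | insert x B hx ih =>
    obtain ⟨e, he, h⟩ := ih
    by_cases hxb : x < b
    · refine ⟨max e x, max_lt he hxb, fun c hc => ?_⟩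
      rcases Finset.mem_insert.1 hc with rfl | hc
      · exact Or.inl (le_max_right _ _)
      · rcases h c hc with h1 | h1
        · exact Or.inl (h1.trans (le_max_left _ _))
        · exact Or.inr h1
    · refine ⟨e, he, fun c hc => ?_⟩
      rcases Finset.mem_insert.1 hc with rfl | hc
      · exact Or.inr (not_lt.1 hxb)
      · exact h c hc

lemma G1_right (B : Finset ℝ) (b : ℝ) : ∃ e > b, ∀ c ∈ B, c ≤ b ∨ e ≤ c := by
  classical
  induction B using Finset.induction_on with
  | empty => exact ⟨b + 1, by linarith, by simp⟩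
  | insert x B hx ih =>
    obtain ⟨e, he, h⟩ := ih
    by_cases hxb : b < x
    · refine ⟨min e x, lt_min he hxb, fun c hc => ?_⟩
      rcases Finset.mem_insert.1 hc with rfl | hc
      · exact Or.inr (min_le_right _ _)
      · rcases h c hc with h1 | h1
        · exact Or.inl h1
        · exact Or.inr ((min_le_left _ _).trans h1)
    · refine ⟨e, he, fun c hc => ?_⟩
      rcases Finset.mem_insert.1 hc with rfl | hc
      · exact Or.inl (not_lt.1 hxb)
      · exact h c hc

lemma G1_zpow {k l : ℤ} (h : (2 : ℝ) ^ k = 2 ^ l) : k = l :=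
  zpow_right_injective₀ (by norm_num) (by norm_num) h

lemma G1_uniqL {g : ℝ ≃o ℝ} {b : ℝ} {k l : ℤ} (h1 : gL g b k) (h2 : gL g b l) : k = l := by
  obtain ⟨e, he, h1⟩ := h1
  obtain ⟨e', he', h2⟩ := h2
  have hm : max e e' < b := max_lt he he'
  have h3 := h1 ((max e e' + b) / 2) (by linarith [le_max_left e e']) (by linarith)
  have h4 := h2 ((max e e' + b) / 2) (by linarith [le_max_right e e']) (by linarith)
  rw [h3] at h4
  have h5 : ((max e e' + b) / 2 - b) ≠ 0 := by
    intro h0
    linarith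
  apply G1_zpow
  apply mul_right_cancel₀ h5
  linarith

lemma G1_uniqR {g : ℝ ≃o ℝ} {b : ℝ} {k l : ℤ} (h1 : gR g b k) (h2 : gR g b l) : k = l := by
  obtain ⟨e, he, h1⟩ := h1
  obtain ⟨e', he', h2⟩ := h2
  have hm : b < min e e' := lt_min he he'
  have h3 := h1 ((min e e' + b) / 2) (by linarith) (by linarith [min_le_left e e'])
  have h4 := h2 ((min e e' + b) / 2) (by linarith) (by linarith [min_le_right e e'])
  rw [h3] at h4
  have h5 : ((min e e' + b) / 2 - b) ≠ 0 := by
    intro h0
    linarith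
  apply G1_zpow
  apply mul_right_cancel₀ h5
  linarith

theorem G1 : G1_stmt := by
  intro g b hgb
  obtain ⟨h0, B, hB, hPL⟩ := g.2
  constructor
  · obtain ⟨e, he, h⟩ := G1_left B b
    obtain ⟨k, c, hk⟩ := hPL e b he h
    have hb := hk b ⟨he.le, le_rfl⟩
    rw [hgb] at hb
    refine ⟨k, ⟨e, he, fun z hz hzb => ?_⟩, fun l hl => ?_⟩
    · rw [hk z ⟨hz.le, hzb⟩]
      linear_combination -hb
    · refine G1_uniqL hl ⟨e, he, fun z hz hzb => ?_⟩
      rw [hk z ⟨hz.le, hzb⟩]
      linear_combination -hb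
  · obtain ⟨e, he, h⟩ := G1_right B b
    obtain ⟨k, c, hk⟩ := hPL b e he h
    have hb := hk b ⟨le_rfl, he.le⟩
    rw [hgb] at hb
    refine ⟨k, ⟨e, he, fun z hz hzb => ?_⟩, fun l hl => ?_⟩
    · rw [hk z ⟨hz, hzb.le⟩]
      linear_combination -hb
    · refine G1_uniqR hl ⟨e, he, fun z hz hzb => ?_⟩
      rw [hk z ⟨hz, hzb.le⟩]
      linear_combination -hb

end Pool.Agent.IRO
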