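import Pool.Agent.helper97.IRO.Spec

set_option autoImplicit false

/-!
Row iro:GE1: the elements `xx i` are in the subgroup generated by `X0` and `xx 1`.
-/

open MeasureTheory Pool.Agent.LOF

namespace Pool.Agent.IRO

lemma GE1_apply (i : ℕ) (t : ℝ) : xx i t = (X0 (2 ^ i * (t - 1) + 1) - 1) / 2 ^ i + 1 := by
  have h2 : (2 : ℝ) ^ i ≠ 0 := by positivity
  show X0 (2 ^ i * (t - (1 - 1 / 2 ^ i))) / 2 ^ i + (1 - 1 / 2 ^ i) = _
  have e : (2 : ℝ) ^ i * (t - (1 - 1 / 2 ^ i)) = 2 ^ i * (t - 1) + 1 := by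
    field_simp
    ring
  rw [e]
  field_simp
  ring

lemma GE1_id (i : ℕ) (t : ℝ) (ht : t ≤ 1 - 1 / 2 ^ i ∨ 1 ≤ t) : xx i t = t := by
  have h2 : (0 : ℝ) < 2 ^ i := by positivity
  have e : X0 (2 ^ i * (t - 1) + 1) = 2 ^ i * (t - 1) + 1 := by
    rcases ht with ht | ht
    · have h3 : 2 ^ i * (t - 1) + 1 ≤ 0 := by
        have h4 : (2 : ℝ) ^ i * t ≤ 2 ^ i * (1 - 1 / 2 ^ i) := mul_le_mul_of_nonneg_left ht h2.le
        have h5 : (2 : ℝ) ^ i * (1 - 1 / 2 ^ i) = 2 ^ i - 1 := by field_simp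
        linarith
      rw [X0_apply, if_pos h3]
    · have h3 : 0 ≤ 2 ^ i * (t - 1) := mul_nonneg h2.le (by linarith)
      rw [X0_apply]
      split_ifs <;> linarith
  rw [GE1_apply, e]
  field_simp
  ring

lemma GE1_comm (i : ℕ) (t : ℝ) : X0 (xx (i + 2) t) = xx (i + 1) (X0 t) := by
  have h1 : (1 : ℝ) / 2 ^ (i + 1) ≤ 1 / 2 := by
    rw [pow_succ]
    have : (1 : ℝ) ≤ 2 ^ i := one_le_pow₀ (by norm_num)
    rw [div_le_div_iff₀ (by positivity) (by norm_num)]
    linarith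
  have h2 : (1 : ℝ) / 2 ^ (i + 2) ≤ 1 / 4 := by
    rw [pow_add]
    have : (1 : ℝ) ≤ 2 ^ i := one_le_pow₀ (by norm_num)
    rw [div_le_div_iff₀ (by positivity) (by norm_num)]
    linarith
  rcases le_or_gt t (3 / 4) with h3 | h3
  · rw [GE1_id (i + 2) t (Or.inl (by linarith)), GE1_id (i + 1) (X0 t)]
    left
    have : X0 t ≤ 1 / 2 := by
      rw [X0_apply]
      split_ifs <;> linarith
    linarith
  · rcases le_or_gt t 1 with h4 | h4
    · have h5 : (3 : ℝ) / 4 ≤ xx (i + 2) t := by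
        have := (xx (i + 2)).monotone h3.le
        rwa [GE1_id (i + 2) (3 / 4) (Or.inl (by linarith))] at this
      have h6 : xx (i + 2) t ≤ 1 := by
        have := (xx (i + 2)).monotone h4
        rwa [GE1_id (i + 2) 1 (Or.inr le_rfl)] at this
      have h7 : X0 (xx (i + 2) t) = 2 * xx (i + 2) t - 1 := by
        rw [X0_apply]
        split_ifs <;> linarith
      have h8 : X0 t = 2 * t - 1 := by
        rw [X0_apply]
        split_ifs <;> linarith
      rw [h7, h8, GE1_apply, GE1_apply]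
      have e : (2 : ℝ) ^ (i + 1) * (2 * t - 1 - 1) + 1 = 2 ^ (i + 2) * (t - 1) + 1 := by ring
      rw [e]
      have h9 : (2 : ℝ) ^ (i + 1) ≠ 0 := by positivity
      rw [show (2 : ℝ) ^ (i + 2) = 2 ^ (i + 1) * 2 by ring]
      field_simp
      ring
    · have h5 : X0 t = t := by
        rw [X0_apply]
        split_ifs <;> linarith
      rw [GE1_id (i + 2) t (Or.inr h4.le), h5, GE1_id (i + 1) t (Or.inr h4.le)]

lemma GE1_rec (i : ℕ) : xx (i + 2) = X0⁻¹ * xx (i + 1) * X0 := by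
  rw [mul_assoc, eq_inv_mul_iff_mul_eq]
  ext t
  exact GE1_comm i t

theorem GE1 : GE1_stmt := by
  intro i
  have h0 : X0 ∈ Subgroup.closure {X0, xx 1} := Subgroup.subset_closure (Or.inl rfl)
  have hx0 : xx 0 = X0 := by
    ext t
    rw [GE1_apply]
    norm_num
  have h1 : xx 1 ∈ Subgroup.closure {X0, xx 1} := Subgroup.subset_closure (Or.inr rfl)
  have h2 : ∀ i : ℕ, xx (i + 1) ∈ Subgroup.closure {X0, xx 1} := by
    intro i
    induction i with
    | zero => exact h1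
    | succ i ih =>
      rw [GE1_rec i]
      exact mul_mem (mul_mem (inv_mem h0) ih) h0
  rcases i with _ | i
  · rw [hx0]; exact h0
  · exact h2 i

end Pool.Agent.IRO
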